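import Pool.Agent.helper4.CV.X1
import Pool.Agent.helper92.CV.B2b
import Pool.Agent.helper63.CV.F6

open scoped BigOperators

namespace Pool.Agent.helper28.OC

open L1G

/-- the embedding of the fresh coordinates -/
def X2_emb (p C n m : ℕ) : Omm p m →+ Om p C n m where
  toFun v := (0, 0, v)
  map_zero' := rfl
  map_add' v v' := by simp

/-- lower bound of the fibre means -/
theorem X2_fibre (p C n m : ℕ) [Fact p.Prime] (ε : ℝ)
    (x y : Om p C n m → ℂ) (hx : AB x ε) (hy : AB y ε) (N : ℕ) (δ : ℝ)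
    (hF : ∀ (a : ℂ) (x y : Omm p m → ℂ), AB x ε → AB y ε →
      ‖a‖ * Real.sqrt m ≤ ε → (∀ v, x v * y v + a * (x v + y v) = (zf δ v : ℝ)) →
      1 / 1000 ≤ 𝔼 v, wN ε N ((x v + y v) / 2))
    (hxy : ∀ w, (aa w + x w) * (aa w + y w) = aa w ^ 2 + (zf δ w.2.2 : ℝ))
    (w₁ w₂ : Om1 p C n) (hr : (A1 w₁) ^ 2 + (A1 w₂) ^ 2 ≤ (ε / Real.sqrt m) ^ 2) (hm : 0 < m)
    (hε : 0 < ε) :
    1 / 1000 ≤ 𝔼 v : Omm p m, wN ε N ((x (w₁, w₂, v) + y (w₁, w₂, v)) / 2) := by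
  have he : ∀ v : Omm p m, ((w₁, w₂, 0) : Om p C n m) + X2_emb p C n m v = (w₁, w₂, v) := by
    intro v
    simp [X2_emb]
  have hx' := AB_comp hx (X2_emb p C n m) (w₁, w₂, 0)
  have hy' := AB_comp hy (X2_emb p C n m) (w₁, w₂, 0)
  simp only [he] at hx' hy'
  have hs : 0 < Real.sqrt m := Real.sqrt_pos.2 (by exact_mod_cast hm)
  refine hF ((A1 w₁ : ℂ) + A1 w₂ * Complex.I) (fun v => x (w₁, w₂, v)) (fun v => y (w₁, w₂, v))
    hx' hy' ?_ ?_
  · rw [← le_div_iff₀ hs]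
    have h1 : ‖((A1 w₁ : ℂ) + A1 w₂ * Complex.I)‖ ^ 2 = (A1 w₁) ^ 2 + (A1 w₂) ^ 2 := by
      rw [← Complex.normSq_eq_norm_sq, Complex.normSq_add_mul_I]
    rw [← h1] at hr
    exact le_of_sq_le_sq hr (by positivity)
  · intro v
    have h1 := hxy (w₁, w₂, v)
    simp only [aa] at h1
    linear_combination h1

/-- module X2 (assembly): the finite obstruction -/
theorem X2_fin (p C : ℕ) [Fact p.Prime] (hC0 : 0 < C) (hC : CharBd p C) :
    ∃ ε : ℝ, 0 < ε ∧ ∀ δ : ℝ, 0 < δ → ∃ n m : ℕ, 0 < m ∧ ∀ x y : Om p C n m → ℂ,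
      AB x ε → AB y ε → ¬ ∀ w, (aa w + x w) * (aa w + y w) = aa w ^ 2 + (zf δ w.2.2 : ℝ) := by
  set e0 : ℝ := Real.exp (-(C : ℝ)) / 4 with he0
  have e0pos : 0 < e0 := by positivity
  have e0le : e0 ≤ 1 / 4 := by
    have : Real.exp (-(C : ℝ)) ≤ 1 := by
      rw [Real.exp_le_one_iff]; simp
    rw [he0]; linarith
  set p0 : ℝ := e0 ^ 2 with hp0
  have p0pos : 0 < p0 := by positivity
  have p0le : p0 ≤ 1 := by rw [hp0]; nlinarith
  set β : ℝ := p0 / 2000 with hβ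
  have βpos : 0 < β := by positivity
  have βle : β ≤ 1 := by rw [hβ]; linarith
  set ε : ℝ := β / (576 * (2 + 32 * C)) with hε
  have hCC : (0 : ℝ) ≤ C := Nat.cast_nonneg _
  have εpos : 0 < ε := by positivity
  have εle : ε ≤ 1 := by
    rw [hε, div_le_one (by positivity)]
    nlinarith
  have ε1 : 72 * (2 * ε ^ 2 + 32 * C * ε) ≤ β / 8 := by
    have h1 : ε * (576 * (2 + 32 * C)) = β := by
      rw [hε]; field_simp
    have h2 : ε ^ 2 ≤ ε := by nlinarith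
    nlinarith
  refine ⟨ε, εpos, fun δ δpos => ?_⟩
  obtain ⟨N, T₀, hF⟩ := F6_fibre p ε δ εpos δpos
  set K : ℝ := 6912 / β with hKdef
  have hK10 : 10 ≤ K := by
    rw [hKdef, le_div_iff₀ βpos]; linarith
  have hK0 : 0 < K := by linarith
  have hK1 : 864 / K = β / 8 := by
    rw [hKdef]; field_simp; norm_num
  -- the choice of tau
  set J : ℝ := 144 * (1 + 2 ^ N) + 1152 * N * K ^ 2 / ε ^ 2 with hJ
  have Jpos : 0 < J := by positivity
  set τ : ℝ := min 1 (β / 8 / J) with hτdef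
  have τpos : 0 < τ := lt_min one_pos (by positivity)
  have τle : τ ≤ 1 := min_le_left _ _
  have τJ : 144 * τ * (1 + 2 ^ N) + 1152 * N * K ^ 2 * τ ^ 2 / ε ^ 2 ≤ β / 8 := by
    have h1 : τ * J ≤ β / 8 := by
      have := min_le_right 1 (β / 8 / J)
      rw [← hτdef, le_div_iff₀ Jpos] at this
      exact this
    have h2 : τ ^ 2 ≤ τ := by nlinarith
    have h3 : 1152 * N * K ^ 2 * τ ^ 2 / ε ^ 2 ≤ τ * (1152 * N * K ^ 2 / ε ^ 2) := by
      have h4 : 1152 * N * K ^ 2 * τ ^ 2 / ε ^ 2 = τ ^ 2 * (1152 * N * K ^ 2 / ε ^ 2) := by ring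
      rw [h4]
      exact mul_le_mul_of_nonneg_right h2 (by positivity)
    rw [hJ] at h1
    nlinarith
  -- Lambda
  set M : ℝ := 144 / p0 with hM
  have Mpos : 0 < M := by positivity
  have M1 : 1 ≤ M := by rw [hM, le_div_iff₀ p0pos]; linarith
  set Λ : ℝ := 2 * Real.sqrt M with hΛ
  have hsM : 1 ≤ Real.sqrt M := Real.one_le_sqrt.2 M1
  have Λ1 : 1 ≤ Λ := by rw [hΛ]; linarith
  have Λpos : 0 < Λ := by linarith
  have Λexp : 72 * Real.exp (-(Λ ^ 2 / 4)) ≤ p0 / 2 := by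
    have h1 : Λ ^ 2 / 4 = M := by
      rw [hΛ, mul_pow, Real.sq_sqrt Mpos.le]; ring
    rw [h1]
    have h2 : M ≤ Real.exp M := by linarith [Real.add_one_le_exp M]
    rw [Real.exp_neg]
    have h3 : (Real.exp M)⁻¹ ≤ M⁻¹ := inv_anti₀ Mpos h2
    have h4 : M⁻¹ = p0 / 144 := by rw [hM, inv_div]
    linarith
  -- the size of m
  set Q : ℝ := 3 * 10 ^ 6 * (1 + 1 / K + N * K ^ 2 / ε ^ 2) + 10 ^ 6 * δ with hQ
  have Qpos : 0 < Q := by positivity
  obtain ⟨T1, hT1⟩ := exists_nat_ge ((8 * Q / (τ ^ 2 * β)) ^ 2)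
  set T : ℕ := max (max T₀ T1) 1 with hT
  have hTT0 : T₀ ≤ T := (le_max_left _ _).trans (le_max_left _ _)
  have hTT1 : T1 ≤ T := (le_max_right _ _).trans (le_max_left _ _)
  have hT1' : 1 ≤ T := le_max_right _ _
  set m : ℕ := 8 * T with hm
  have mpos : 0 < m := by omega
  have hmR : (m : ℝ) = 8 * T := by rw [hm]; push_cast; ring
  have m1 : (1 : ℝ) ≤ m := by exact_mod_cast mpos
  have hs0 : 0 < Real.sqrt m := Real.sqrt_pos.2 (by linarith)
  have hs1 : 1 ≤ Real.sqrt m := Real.one_le_sqrt.2 m1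
  have hsQ : 8 * Q / (τ ^ 2 * β) ≤ Real.sqrt m := by
    refine Real.le_sqrt_of_sq_le ?_
    have h1 : (T1 : ℝ) ≤ T := by exact_mod_cast hTT1
    have h2 : (T : ℝ) ≤ m := by rw [hmR]; nlinarith [(Nat.cast_nonneg T : (0 : ℝ) ≤ T)]
    linarith
  have hQs : Q / Real.sqrt m ≤ τ ^ 2 * β / 8 := by
    rw [div_le_iff₀ (by positivity)] at hsQ
    rw [div_le_iff₀ hs0]
    linarith
  set h : ℝ := ε / (Λ * Real.sqrt m) with hh
  have hpos : 0 < h := by positivity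
  have hle : h ≤ 1 / Real.sqrt m := by
    rw [hh, div_le_div_iff₀ (by positivity) hs0]
    have i1 := mul_le_mul_of_nonneg_right Λ1 hs0.le
    have i2 := mul_le_mul_of_nonneg_right εle hs0.le
    linarith
  have hle1 : h ≤ 1 := hle.trans (by rw [div_le_one hs0]; exact hs1)
  have h2 : h ^ 2 ≤ 1 / Real.sqrt m := (pow_le_of_le_one hpos.le hle1 two_ne_zero).trans hle
  have h4 : h ^ 4 ≤ 1 / Real.sqrt m := (pow_le_of_le_one hpos.le hle1 four_ne_zero).trans hle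
  have hτh : τ * h ≤ 1 / Real.sqrt m := by
    have := mul_le_mul_of_nonneg_right τle hpos.le
    linarith
  -- the choice of n
  obtain ⟨n1, hn1⟩ := B2_good hC h hpos
  obtain ⟨n2, hn2⟩ := B2_good hC (Real.sqrt 2 * h) (by positivity)
  set n : ℕ := max n1 n2 with hn
  have hg : Good p C n h := hn1 n (le_max_left _ _)
  have hg2 : Good p C n (Real.sqrt 2 * h) := hn2 n (le_max_right _ _)
  refine ⟨n, m, mpos, fun x y hx hy hxy => ?_⟩
  have hqAB : AB (fun w => (x w + y w) / 2) ε := by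
    have h1 := AB_smul (1 / 2 : ℂ) (AB_add hx hy)
    have half : ‖(1 / 2 : ℂ)‖ = 1 / 2 := by simp
    rw [half] at h1
    have h2 : (fun w => (1 / 2 : ℂ) * (x w + y w)) = (fun w => (x w + y w) / 2) := by
      funext w; ring
    rw [h2] at h1
    exact AB_mono h1 (by linarith)
  have hq : ∀ w, ‖(x w + y w) / 2‖ ≤ ε := AB_norm_le hqAB
  -- lower bound
  have hlow : β ≤ DR h (0, 0) (fun w : Om p C n m => wN ε N ((x w + y w) / 2)) := by
    have hp : p0 ≤ DR h (0, 0) (fun _ : Om p C n m => 1) := by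
      rw [B4_one, hp0]
      exact pow_le_pow_left₀ e0pos.le (B2_pos p C n h hpos hle1) 2
    have h1 := B6_lower (m := m) hpos hg2 (p₀ := p0) (κ := 1 / 1000) (r := ε / Real.sqrt m) hp
      (by norm_num) (fun w => wN ε N ((x w + y w) / 2))
      (fun w => (P2_wN_mem _ ε N εpos (hq w)).1) (by positivity)
      (fun w₁ w₂ hw => X2_fibre p C n m ε x y hx hy N δ (by
        intro a x y hx hy ha
        refine hF T hTT0 a x y hx hy ?_
        rw [hmR] at ha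
        exact ha) hxy w₁ w₂ hw mpos εpos) (by
        have h3 : (ε / Real.sqrt m) ^ 2 / (4 * h ^ 2) = Λ ^ 2 / 4 := by
          rw [hh]; field_simp
        rw [h3]
        exact Λexp)
    have h2 : (1 / 1000 : ℝ) * p0 / 2 = β := by rw [hβ]; ring
    rw [h2] at h1
    exact h1
  have hup := X1_main p C n m mpos h hpos hg hg2 ε δ K τ N εpos δpos hK10 τpos x y hx hy hxy
  have t2 : 0 < τ ^ 2 := by positivity
  have g1 : 72 * τ ^ 2 * (2 * ε ^ 2 + 32 * C * ε) ≤ τ ^ 2 * (β / 8) := by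
    have := mul_le_mul_of_nonneg_left ε1 t2.le
    linarith
  have g2 : 864 * τ ^ 2 / K = τ ^ 2 * (β / 8) := by rw [← hK1]; ring
  have g3 : 144 * τ ^ 3 * (1 + 2 ^ N) + 1152 * N * K ^ 2 * τ ^ 4 / ε ^ 2 ≤ τ ^ 2 * (β / 8) := by
    have h1 := mul_le_mul_of_nonneg_left τJ t2.le
    have h2 : 144 * τ ^ 3 * (1 + 2 ^ N) + 1152 * N * K ^ 2 * τ ^ 4 / ε ^ 2 =
      τ ^ 2 * (144 * τ * (1 + 2 ^ N) + 1152 * N * K ^ 2 * τ ^ 2 / ε ^ 2) := by ring
    rw [h2]; exact h1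
  have g4 : 10 ^ 6 * (1 + 1 / K + N * K ^ 2 / ε ^ 2) * (h ^ 2 + h ^ 4 + τ * h)
        + 10 ^ 6 * δ / Real.sqrt m ≤ τ ^ 2 * (β / 8) := by
    have h1 : h ^ 2 + h ^ 4 + τ * h ≤ 3 * (1 / Real.sqrt m) := by linarith
    have h3 : 10 ^ 6 * (1 + 1 / K + N * K ^ 2 / ε ^ 2) * (h ^ 2 + h ^ 4 + τ * h) ≤
      10 ^ 6 * (1 + 1 / K + N * K ^ 2 / ε ^ 2) * (3 * (1 / Real.sqrt m)) :=
      mul_le_mul_of_nonneg_left h1 (by positivity)
    have h5 : 10 ^ 6 * (1 + 1 / K + N * K ^ 2 / ε ^ 2) * (3 * (1 / Real.sqrt m)) +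
      10 ^ 6 * δ / Real.sqrt m = Q / Real.sqrt m := by rw [hQ]; ring
    linarith
  have h5 : 2 * τ ^ 2 * β ≤ 2 * τ ^ 2 * DR h (0, 0) (fun w : Om p C n m => wN ε N ((x w + y w) / 2)) :=
    mul_le_mul_of_nonneg_left hlow (by positivity)
  have h6 : 0 < τ ^ 2 * β := by positivity
  linarith

end Pool.Agent.helper28.OC
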