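import Pool.Agent.helper93.CV.P1
import Pool.Agent.helper93.CV.P2
import Pool.Agent.helper46.CV.B6

open scoped BigOperators

namespace Pool.Agent.helper28.OC

open L1G

section
variable {p C n m : ℕ} [NeZero p]

theorem X1_add (h : ℝ) (t : ℝ × ℝ) (f g : Om p C n m → ℝ) :
    DR h t (fun w => f w + g w) = DR h t f + DR h t g := by
  unfold DR
  rw [← Finset.expect_add_distrib]
  refine Finset.expect_congr rfl fun w _ => ?_
  ring

theorem X1_sub (h : ℝ) (t : ℝ × ℝ) (f g : Om p C n m → ℝ) :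
    DR h t (fun w => f w - g w) = DR h t f - DR h t g := by
  unfold DR
  rw [← Finset.expect_sub_distrib]
  refine Finset.expect_congr rfl fun w _ => ?_
  ring

theorem X1_smul (h : ℝ) (t : ℝ × ℝ) (c : ℝ) (f : Om p C n m → ℝ) :
    DR h t (fun w => c * f w) = c * DR h t f := by
  unfold DR
  rw [Finset.mul_expect]
  refine Finset.expect_congr rfl fun w _ => ?_
  ring

theorem X1_const (h : ℝ) (t : ℝ × ℝ) (c : ℝ) :
    DR h t (fun _ : Om p C n m => c) = c * DR h t (fun _ : Om p C n m => 1) := by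
  rw [← X1_smul]; simp

theorem X1_re (h : ℝ) (t : ℝ × ℝ) (f : Om p C n m → ℂ) :
    DR h t (fun w => (f w).re) = (DD h t f).re := by
  unfold DR DD
  rw [Complex.re_expect]
  refine Finset.expect_congr rfl fun w _ => ?_
  rw [Complex.re_mul_ofReal]

theorem X1_one_le {h : ℝ} (hg : Good p C n h) (t : ℝ × ℝ) :
    DR h t (fun _ : Om p C n m => 1) ≤ 36 := by
  have h1 : AB (fun _ : Om p C n m => (1 : ℂ)) ‖(1 : ℂ)‖ := AB_const 1
  have h2 := B3_bd hg t h1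
  have h3 := B4_DD_ofReal h t (fun _ : Om p C n m => (1 : ℝ))
  simp only [Complex.ofReal_one] at h3
  rw [h3] at h2
  simp only [norm_one, mul_one] at h2
  rw [Complex.norm_real] at h2
  exact (le_abs_self _).trans h2

theorem X1_one_nonneg (h : ℝ) (t : ℝ × ℝ) :
    0 ≤ DR h t (fun _ : Om p C n m => 1) := by
  have h1 := B4_mono (C := C) (n := n) (m := m) (p := p) (h := h) t
    (f := fun _ => 0) (g := fun _ => 1) (fun _ => zero_le_one)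
  have h2 : DR h t (fun _ : Om p C n m => (0 : ℝ)) = 0 := by
    rw [X1_const]; simp
  rw [h2] at h1
  exact h1

end

/-- pointwise form of P1 with `a` replaced by a point `t` with `star (t ^ 2) = s` real -/
theorem X1_pt (a q d z t : ℂ) (ε K τ s : ℝ) (N : ℕ) (hε : 0 < ε) (hK : 10 ≤ K) (hq : ‖q‖ ≤ ε)
    (hτ : 0 < τ) (ht : ‖t‖ = τ) (hs : star (t ^ 2) = (s : ℂ))
    (h : d ^ 2 = q ^ 2 + 2 * a * q - z) :
    τ ^ 2 * wN ε N q - s * (hN ε N q).re - (2 + 12 / K) * ‖a - t‖ ^ 2 - 4 * τ * ‖a - t‖ ^ 1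
      - (12 * τ ^ 2 / K + 16 * N * K ^ 2 * τ ^ 4 / ε ^ 2) - 16 * N * K ^ 2 / ε ^ 2 * ‖a - t‖ ^ 4
      - ‖z‖ ≤ f0 a q d := by
  obtain ⟨-, -, h3⟩ := P1_pointwise a q d z ε K N hε hK hq h
  obtain ⟨w0, w1, hw⟩ := P2_wN_mem q ε N hε hq
  refine le_trans ?_ h3
  have hK0 : 0 < K := by linarith
  set r : ℝ := ‖a - t‖ with hr
  have hr0 : 0 ≤ r := norm_nonneg _
  have ha1 : ‖a‖ ≤ r + τ := by
    calc ‖a‖ = ‖(a - t) + t‖ := by ring_nf
      _ ≤ ‖a - t‖ + ‖t‖ := norm_add_le _ _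
      _ = r + τ := by rw [ht]
  have ha2 : τ ≤ r + ‖a‖ := by
    calc τ = ‖a - (a - t)‖ := by rw [← ht]; ring_nf
      _ ≤ ‖a‖ + ‖a - t‖ := norm_sub_le _ _
      _ = r + ‖a‖ := by ring
  have ha0 : 0 ≤ ‖a‖ := norm_nonneg _
  -- (1) |a|^2 wN
  have e1 : τ ^ 2 - (r ^ 2 + 2 * τ * r) ≤ ‖a‖ ^ 2 := by
    rcases le_total τ r with hle | hle
    · nlinarith
    · have : τ - r ≤ ‖a‖ := by linarith
      nlinarith [mul_self_nonneg (τ - r), sub_nonneg.2 hle]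
  have e1' : τ ^ 2 * wN ε N q - (r ^ 2 + 2 * τ * r) ≤ ‖a‖ ^ 2 * wN ε N q := by
    have h5 := mul_le_mul_of_nonneg_right e1 w0
    have h6 : (r ^ 2 + 2 * τ * r) * wN ε N q ≤ (r ^ 2 + 2 * τ * r) * 1 :=
      mul_le_mul_of_nonneg_left w1 (by positivity)
    nlinarith
  -- (2) the h_N term
  have e2 : (star (a ^ 2) * hN ε N q).re ≤ s * (hN ε N q).re + (r ^ 2 + 2 * τ * r) := by
    have h5 : star (a ^ 2) * hN ε N q = (s : ℂ) * hN ε N q + star (a ^ 2 - t ^ 2) * hN ε N q := by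
      rw [star_sub, hs]; ring
    rw [h5, Complex.add_re, Complex.re_ofReal_mul]
    have h6 : (star (a ^ 2 - t ^ 2) * hN ε N q).re ≤ ‖star (a ^ 2 - t ^ 2) * hN ε N q‖ :=
      Complex.re_le_norm _
    have h7 : ‖star (a ^ 2 - t ^ 2) * hN ε N q‖ ≤ (r ^ 2 + 2 * τ * r) * 1 := by
      rw [norm_mul, norm_star]
      refine mul_le_mul ?_ (by rw [hw]; exact w1) (norm_nonneg _) (by positivity)
      have h8 : a ^ 2 - t ^ 2 = (a - t) * ((a - t) + 2 * t) := by ring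
      rw [h8, norm_mul]
      have h9 : ‖(a - t) + 2 * t‖ ≤ r + 2 * τ := by
        calc ‖(a - t) + 2 * t‖ ≤ ‖a - t‖ + ‖2 * t‖ := norm_add_le _ _
          _ = r + 2 * τ := by rw [norm_mul, ht]; simp [hr]
      calc ‖a - t‖ * ‖(a - t) + 2 * t‖ ≤ r * (r + 2 * τ) := mul_le_mul_of_nonneg_left h9 hr0
        _ = r ^ 2 + 2 * τ * r := by ring
    linarith
  -- (3) powers of |a|
  have e3 : ‖a‖ ^ 2 ≤ 2 * τ ^ 2 + 2 * r ^ 2 := by
    have : ‖a‖ ^ 2 ≤ (r + τ) ^ 2 := pow_le_pow_left₀ ha0 ha1 2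
    nlinarith [sq_nonneg (r - τ)]
  have e4 : ‖a‖ ^ 4 ≤ 8 * τ ^ 4 + 8 * r ^ 4 := by
    have h5 : ‖a‖ ^ 4 = (‖a‖ ^ 2) ^ 2 := by ring
    have h6 : (‖a‖ ^ 2) ^ 2 ≤ (2 * τ ^ 2 + 2 * r ^ 2) ^ 2 := pow_le_pow_left₀ (by positivity) e3 2
    rw [h5]
    nlinarith [sq_nonneg (r ^ 2 - τ ^ 2)]
  have e3' : 6 * ‖a‖ ^ 2 / K ≤ 12 * τ ^ 2 / K + 12 / K * r ^ 2 := by
    have h5 : 12 * τ ^ 2 / K + 12 / K * r ^ 2 = 6 * (2 * τ ^ 2 + 2 * r ^ 2) / K := by ring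
    rw [h5]
    exact div_le_div_of_nonneg_right (by linarith) hK0.le
  have e4' : 2 * N * K ^ 2 * ‖a‖ ^ 4 / ε ^ 2 ≤
      16 * N * K ^ 2 * τ ^ 4 / ε ^ 2 + 16 * N * K ^ 2 / ε ^ 2 * r ^ 4 := by
    have h5 : 16 * N * K ^ 2 * τ ^ 4 / ε ^ 2 + 16 * N * K ^ 2 / ε ^ 2 * r ^ 4 =
      2 * N * K ^ 2 * (8 * τ ^ 4 + 8 * r ^ 4) / ε ^ 2 := by ring
    rw [h5]
    exact div_le_div_of_nonneg_right (mul_le_mul_of_nonneg_left e4 (by positivity)) (by positivity)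
  rw [pow_one]
  nlinarith

section
variable {p C n m : ℕ} [Fact p.Prime]

theorem X1_z_le (hm : 0 < m) {h : ℝ} (hg : Good p C n h) (δ : ℝ) (hδ : 0 < δ) (t : ℝ × ℝ) :
    DR h t (fun w : Om p C n m => ‖((zf δ w.2.2 : ℝ) : ℂ)‖) ≤ 36 * (δ / Real.sqrt m) := by
  rw [B4_fresh h t (fun v : Omm p m => ‖((zf δ v : ℝ) : ℂ)‖)]
  have h1 := (P2_zf p m hm δ hδ).1
  have h2 := X1_one_le (m := m) hg t
  have h3 : (0 : ℝ) ≤ δ / Real.sqrt m := by positivity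
  calc _ ≤ DR h t (fun _ : Om p C n m => 1) * (δ / Real.sqrt m) :=
        mul_le_mul_of_nonneg_left h1 (X1_one_nonneg h t)
    _ ≤ 36 * (δ / Real.sqrt m) := mul_le_mul_of_nonneg_right h2 h3

/-- lower bound of `DR t f₀` -/
theorem X1_lower (hm : 0 < m) (h : ℝ) (hh : 0 < h)
    (hg : Good p C n h) (hg2 : Good p C n (Real.sqrt 2 * h)) (ε δ K τ s : ℝ) (N : ℕ)
    (hε : 0 < ε) (hδ : 0 < δ) (hK : 10 ≤ K) (hτ : 0 < τ) (t : ℝ × ℝ)
    (ht : ‖((t.1 : ℂ) + t.2 * Complex.I)‖ = τ) (hs : star (((t.1 : ℂ) + t.2 * Complex.I) ^ 2) = (s : ℂ))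
    (q d : Om p C n m → ℂ) (hq : ∀ w, ‖q w‖ ≤ ε)
    (hqd : ∀ w, d w ^ 2 = q w ^ 2 + 2 * aa w * q w - ((zf δ w.2.2 : ℝ) : ℂ)) :
    τ ^ 2 * DR h t (fun w => wN ε N (q w)) - s * (DD h t (fun w => hN ε N (q w))).re
      - (2 + 12 / K) * (2304 * h ^ 2) - 4 * τ * (2304 * h)
      - (12 * τ ^ 2 / K + 16 * N * K ^ 2 * τ ^ 4 / ε ^ 2) * 36
      - 16 * N * K ^ 2 / ε ^ 2 * (2304 * h ^ 4)
      - 36 * (δ / Real.sqrt m) ≤ DR h t (fun w => f0 (aa w) (q w) (d w)) := by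
  set c : ℂ := (t.1 : ℂ) + t.2 * Complex.I with hc
  have hK0 : 0 < K := by linarith
  have h1 := B4_mono (h := h) t (fun w : Om p C n m =>
    X1_pt (aa w) (q w) (d w) ((zf δ w.2.2 : ℝ) : ℂ) c ε K τ s N hε hK (hq w) hτ ht hs (hqd w))
  refine le_trans ?_ h1
  have m1 := B5_moment (m := m) hh hg2 t 1 (Or.inl rfl)
  have m2 := B5_moment (m := m) hh hg2 t 2 (Or.inr (Or.inl rfl))
  have m4 := B5_moment (m := m) hh hg2 t 4 (Or.inr (Or.inr rfl))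
  have mz := X1_z_le (m := m) hm hg δ hδ t
  have mo := X1_one_le (m := m) hg t
  rw [X1_sub, X1_sub, X1_sub, X1_sub, X1_sub, X1_sub, X1_smul, X1_smul, X1_smul, X1_smul, X1_smul,
    X1_re, X1_const]
  have k2 : (2 + 12 / K) * DR h t (fun w : Om p C n m => ‖aa w - c‖ ^ 2) ≤
      (2 + 12 / K) * (2304 * h ^ 2) := mul_le_mul_of_nonneg_left m2 (by positivity)
  have k1 : 4 * τ * DR h t (fun w : Om p C n m => ‖aa w - c‖ ^ 1) ≤ 4 * τ * (2304 * h) := by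
    rw [pow_one] at m1
    exact mul_le_mul_of_nonneg_left m1 (by positivity)
  have k4 : 16 * N * K ^ 2 / ε ^ 2 * DR h t (fun w : Om p C n m => ‖aa w - c‖ ^ 4) ≤
      16 * N * K ^ 2 / ε ^ 2 * (2304 * h ^ 4) := mul_le_mul_of_nonneg_left m4 (by positivity)
  have k0 : (12 * τ ^ 2 / K + 16 * N * K ^ 2 * τ ^ 4 / ε ^ 2) * DR h t (fun _ : Om p C n m => 1) ≤
      (12 * τ ^ 2 / K + 16 * N * K ^ 2 * τ ^ 4 / ε ^ 2) * 36 :=
    mul_le_mul_of_nonneg_left mo (by positivity)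
  linarith

/-- upper bound of `DR t f₀` by the second difference -/
theorem X1_upper (hm : 0 < m) (h : ℝ) (hh : 0 < h)
    (hg : Good p C n h) (hg2 : Good p C n (Real.sqrt 2 * h)) (ε δ Δ : ℝ)
    (hε : 0 < ε) (hδ : 0 < δ) (t : ℝ × ℝ) (t' : ℝ × ℝ)
    (q d : Om p C n m → ℂ) (hq : ∀ w, ‖q w‖ ≤ ε)
    (hqd : ∀ w, d w ^ 2 = q w ^ 2 + 2 * aa w * q w - ((zf δ w.2.2 : ℝ) : ℂ))
    (hΔ : ‖DD h t (fun w => (f0 (aa w) (q w) (d w) : ℂ)) + DD h t' (fun w => (f0 (aa w) (q w) (d w) : ℂ))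
      - 2 * DD h (0, 0) (fun w => (f0 (aa w) (q w) (d w) : ℂ))‖ ≤ Δ) :
    DR h t (fun w => f0 (aa w) (q w) (d w)) ≤ Δ + 4 * (2304 * h ^ 2) + 108 * (δ / Real.sqrt m) := by
  rw [B4_DD_ofReal, B4_DD_ofReal, B4_DD_ofReal] at hΔ
  have h1 : DR h t (fun w => f0 (aa w) (q w) (d w)) + DR h t' (fun w => f0 (aa w) (q w) (d w))
      - 2 * DR h (0, 0) (fun w => f0 (aa w) (q w) (d w)) ≤ Δ := by
    refine le_trans (le_abs_self _) ?_
    rw [← Real.norm_eq_abs, ← Complex.norm_real]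
    push_cast
    exact hΔ
  have h2 : DR h (0, 0) (fun w => f0 (aa w) (q w) (d w)) ≤
      36 * (δ / Real.sqrt m) + 2 * (2304 * h ^ 2) := by
    have h3 := B4_mono (h := h) (0, 0) (fun w : Om p C n m =>
      (P1_pointwise (aa w) (q w) (d w) ((zf δ w.2.2 : ℝ) : ℂ) ε 10 0 hε le_rfl (hq w) (hqd w)).2.1)
    refine h3.trans ?_
    rw [X1_add, X1_smul]
    have m2 := B5_moment (m := m) hh hg2 (0, 0) 2 (Or.inr (Or.inl rfl))
    simp only [Complex.ofReal_zero, zero_mul, add_zero, sub_zero] at m2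
    have mz := X1_z_le (m := m) hm hg δ hδ (0, 0)
    linarith
  have h4 : - (36 * (δ / Real.sqrt m)) ≤ DR h t' (fun w => f0 (aa w) (q w) (d w)) := by
    have h3 := B4_mono (h := h) t' (fun w : Om p C n m =>
      (P1_pointwise (aa w) (q w) (d w) ((zf δ w.2.2 : ℝ) : ℂ) ε 10 0 hε le_rfl (hq w) (hqd w)).1)
    refine le_trans ?_ h3
    have mz := X1_z_le (m := m) hm hg δ hδ t'
    have h5 : DR h t' (fun w : Om p C n m => -‖((zf δ w.2.2 : ℝ) : ℂ)‖) =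
        - DR h t' (fun w : Om p C n m => ‖((zf δ w.2.2 : ℝ) : ℂ)‖) := by
      have := X1_smul h t' (-1) (fun w : Om p C n m => ‖((zf δ w.2.2 : ℝ) : ℂ)‖)
      simpa using this
    rw [h5]
    linarith
  linarith

end

/-- module X1 (assembly of B3-B6, P1, P2): the inequality, all parameters free -/
theorem X1_main (p C n m : ℕ) [Fact p.Prime] (hm : 0 < m) (h : ℝ) (hh : 0 < h)
    (hg : Good p C n h) (hg2 : Good p C n (Real.sqrt 2 * h)) (ε δ K τ : ℝ) (N : ℕ)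
    (hε : 0 < ε) (hδ : 0 < δ) (hK : 10 ≤ K) (hτ : 0 < τ)
    (x y : Om p C n m → ℂ) (hx : AB x ε) (hy : AB y ε)
    (hxy : ∀ w, (aa w + x w) * (aa w + y w) = aa w ^ 2 + (zf δ w.2.2 : ℝ)) :
    2 * τ ^ 2 * DR h (0, 0) (fun w : Om p C n m => wN ε N ((x w + y w) / 2)) ≤
      72 * τ ^ 2 * (2 * ε ^ 2 + 32 * C * ε) + 864 * τ ^ 2 / K + 144 * τ ^ 3 * (1 + 2 ^ N)
      + 1152 * N * K ^ 2 * τ ^ 4 / ε ^ 2
      + (10 ^ 6 * (1 + 1 / K + N * K ^ 2 / ε ^ 2) * (h ^ 2 + h ^ 4 + τ * h)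
        + 10 ^ 6 * δ / Real.sqrt m) := by
  have hK0 : 0 < K := by linarith
  set q : Om p C n m → ℂ := fun w => (x w + y w) / 2 with hqdef
  set d : Om p C n m → ℂ := fun w => (x w - y w) / 2 with hddef
  have half : ‖(1 / 2 : ℂ)‖ = 1 / 2 := by simp
  have hqAB : AB q ε := by
    have h1 := AB_smul (1 / 2 : ℂ) (AB_add hx hy)
    rw [half] at h1
    have h2 : (fun w => (1 / 2 : ℂ) * (x w + y w)) = q := by
      funext w; simp only [hqdef]; ring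
    rw [h2] at h1
    exact AB_mono h1 (by linarith)
  have hdAB : AB d ε := by
    have h1 := AB_smul (1 / 2 : ℂ) (AB_sub hx hy)
    rw [half] at h1
    have h2 : (fun w => (1 / 2 : ℂ) * (x w - y w)) = d := by
      funext w; simp only [hddef]; ring
    rw [h2] at h1
    exact AB_mono h1 (by linarith)
  have hq : ∀ w, ‖q w‖ ≤ ε := AB_norm_le hqAB
  have hqd : ∀ w, d w ^ 2 = q w ^ 2 + 2 * aa w * q w - ((zf δ w.2.2 : ℝ) : ℂ) := by
    intro w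
    have h1 := hxy w
    simp only [hqdef, hddef]
    linear_combination (-1 : ℂ) * h1
  have hfAB : AB (fun w => (f0 (aa w) (q w) (d w) : ℂ)) (2 * ε ^ 2 + 2 * (16 * C) * ε) :=
    P2_AB_f0 (P2_AB_aa p C n m) hqAB hdAB
  -- upper bounds
  have u1 := X1_upper hm h hh hg hg2 ε δ _ hε hδ (τ, 0) (-τ, 0) q d hq hqd (B3_snd1 hg τ hfAB)
  have u2 := X1_upper hm h hh hg hg2 ε δ _ hε hδ (0, τ) (0, -τ) q d hq hqd (B3_snd2 hg τ hfAB)
  -- lower bounds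
  have l1 := X1_lower hm h hh hg hg2 ε δ K τ (τ ^ 2) N hε hδ hK hτ (τ, 0)
    (by simp [abs_of_pos hτ]) (by simp [← Complex.ofReal_pow]) q d hq hqd
  have l2 := X1_lower hm h hh hg hg2 ε δ K τ (-τ ^ 2) N hε hδ hK hτ (0, τ)
    (by simp [abs_of_pos hτ]) (by simp [mul_pow, ← Complex.ofReal_pow]) q d hq hqd
  -- w_N
  have hwAB := P2_AB_wN hε hqAB N
  have w1 := B3_lip1 hg τ hwAB
  have w2 := B3_lip2 hg τ hwAB
  rw [B4_DD_ofReal, B4_DD_ofReal, ← Complex.ofReal_sub, Complex.norm_real, abs_of_pos hτ] at w1 w2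
  have w1' := (abs_le.1 w1).1
  have w2' := (abs_le.1 w2).1
  -- h_N
  have hhAB := P2_AB_hN hε hqAB N
  have v1 := B3_lip1 hg τ hhAB
  have v2 := B3_lip2 hg τ hhAB
  rw [abs_of_pos hτ] at v1 v2
  set D0 := DD h (0, 0) (fun w => hN ε N (q w)) with hD0
  set D1 := DD h (τ, 0) (fun w => hN ε N (q w)) with hD1
  set D2 := DD h (0, τ) (fun w => hN ε N (q w)) with hD2
  have v3 : D1.re - D2.re ≤ 72 * τ * 2 ^ N := by
    have a1 : (D1 - D0).re ≤ ‖D1 - D0‖ := Complex.re_le_norm _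
    have a2 : -‖D2 - D0‖ ≤ (D2 - D0).re := (abs_le.1 (Complex.abs_re_le_norm _)).1
    rw [Complex.sub_re] at a1 a2
    linarith
  have τ2 : 0 < τ ^ 2 := by positivity
  set W0 := DR h (0, 0) (fun w => wN ε N (q w)) with hW0
  set W1 := DR h (τ, 0) (fun w => wN ε N (q w)) with hW1
  set W2 := DR h (0, τ) (fun w => wN ε N (q w)) with hW2
  have s1 : τ ^ 2 * (W0 - 36 * τ * (1 + 2 ^ N)) ≤ τ ^ 2 * W1 :=
    mul_le_mul_of_nonneg_left (by linarith) τ2.le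
  have s2 : τ ^ 2 * (W0 - 36 * τ * (1 + 2 ^ N)) ≤ τ ^ 2 * W2 :=
    mul_le_mul_of_nonneg_left (by linarith) τ2.le
  have s3 : τ ^ 2 * (D1.re - D2.re) ≤ τ ^ 2 * (72 * τ * 2 ^ N) :=
    mul_le_mul_of_nonneg_left v3 τ2.le
  have hS : 0 ≤ δ / Real.sqrt m := by positivity
  set X : ℝ := N * K ^ 2 / ε ^ 2 with hX
  have hX0 : 0 ≤ X := by positivity
  have hK1 : 0 < 1 / K := by positivity
  have r1 : 12 / K = 12 * (1 / K) := by ring
  have r2 : 16 * N * K ^ 2 * τ ^ 4 / ε ^ 2 = 16 * X * τ ^ 4 := by rw [hX]; ring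
  have r3 : 16 * N * K ^ 2 / ε ^ 2 = 16 * X := by rw [hX]; ring
  have r4 : 12 * τ ^ 2 / K = 12 * τ ^ 2 * (1 / K) := by ring
  have r5 : 864 * τ ^ 2 / K = 864 * τ ^ 2 * (1 / K) := by ring
  have r6 : 1152 * N * K ^ 2 * τ ^ 4 / ε ^ 2 = 1152 * X * τ ^ 4 := by rw [hX]; ring
  have r7 : 10 ^ 6 * δ / Real.sqrt m = 10 ^ 6 * (δ / Real.sqrt m) := by ring
  rw [r1, r2, r3, r4] at l1 l2
  rw [r5, r6, r7]
  set k : ℝ := 1 / K with hk
  set S : ℝ := δ / Real.sqrt m with hSdef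
  have p1 : 0 ≤ k * h ^ 4 := by positivity
  have p2 : 0 ≤ k * h ^ 2 := by positivity
  have p3 : 0 ≤ k * (τ * h) := by positivity
  have p4 : 0 ≤ X * h ^ 2 := by positivity
  have p5 : 0 ≤ X * h ^ 4 := by positivity
  have p6 : 0 ≤ X * (τ * h) := by positivity
  have p7 : 0 ≤ τ * h := by positivity
  have p8 : 0 ≤ h ^ 2 := by positivity
  have p9 : 0 ≤ h ^ 4 := by positivity
  nlinarith

end Pool.Agent.helper28.OC
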